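import Pool.Agent.Q263.Circ.Block

/-!
# The circumference-weighted local bound on clique counts, edge version

For `t ≥ 3` and a finite graph `G` with `m` edges, `∑ C(γ(T), 2) / C(γ(T), t) ≤ m`, the sum over
the `t`-cliques `T`, where `γ(T)` is the length of a longest cycle through `T`; equality holds if
and only if every block of `G` is an isolated vertex or a complete graph on at least `t` vertices.

Outline. For every vertex `v`, the localised bound for cliques and paths is applied to the
neighbourhood of `v`: a path in the neighbourhood of `v` closes up to a cycle through `v`. Summing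
over `v` gives the inequality. In the case of equality every neighbourhood is a disjoint union of
cliques with at least `t - 1` vertices and no cycle through `T` is longer than the clique at `T`;
a clique properly contained in a block lies on a longer cycle.
-/

set_option autoImplicit false
open Finset
open scoped Classical

namespace Pool.Agent.Results.MP_18736b_co.CircumferenceWeights

open Pool.Agent.Q263.Circ

variable {V : Type*} [Fintype V] {G : SimpleGraph V}

/-- The weight `C(γ, 2) / C(γ, t)`. -/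
noncomputable def cw (t γ : ℕ) : ℚ := (γ.choose 2 : ℚ) / (γ.choose t : ℚ)

theorem cw_eq {t γ : ℕ} (ht : 3 ≤ t) (hγ : t ≤ γ) : (t : ℚ) * w (t - 1) (γ - 1) = 2 * cw t γ := by
  obtain ⟨s, rfl⟩ : ∃ s, t = s + 1 := ⟨t - 1, by omega⟩
  obtain ⟨g, rfl⟩ : ∃ g, γ = g + 1 := ⟨γ - 1, by omega⟩
  unfold cw w
  simp only [Nat.add_sub_cancel]
  have h1 : 0 < g.choose s := Nat.choose_pos (by omega)
  have h2 : 0 < (g + 1).choose (s + 1) := Nat.choose_pos hγ
  have h3 : ((g + 1 : ℕ) : ℚ) * (g.choose s : ℚ) = ((g + 1).choose (s + 1) : ℚ) * ((s + 1 : ℕ) : ℚ) := by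
    exact_mod_cast Nat.add_one_mul_choose_eq g s
  have h4 : (((g + 1).choose 2 : ℕ) : ℚ) = ((g : ℚ) + 1) * g / 2 := by
    rw [Nat.cast_choose_two]; push_cast; ring
  rw [h4, mul_div_assoc', mul_div_assoc', div_eq_div_iff (by positivity) (by positivity)]
  push_cast at h3 ⊢
  linear_combination (-(g : ℚ)) * h3

theorem mem_K {t : ℕ} {T : Finset V} : T ∈ Kc G univ t ↔ T.card = t ∧ G.IsClique (T : Set V) := by
  rw [mem_Kc]; simp

theorem le_gam {t : ℕ} (ht : 3 ≤ t) {T : Finset V} (hT : T ∈ Kc G univ t) : t ≤ gam G T := by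
  rw [mem_K] at hT
  have := card_le_gam hT.2 (by omega) (subset_refl T)
  rwa [hT.1] at this

/-- Cliques through `v` correspond to cliques in the neighbourhood of `v`. -/
theorem sum_through {t : ℕ} (ht : 3 ≤ t) (v : V) (f : Finset V → ℚ) :
    ∑ T ∈ (Kc G univ t).filter (fun T => v ∈ T), f T
      = ∑ S ∈ Kc G (nh G v) (t - 1), f (insert v S) := by
  symm
  apply sum_bij (fun S _ => insert v S)
  · intro S hS
    rw [mem_Kc] at hS
    have hv : v ∉ S := fun h => G.loopless.irrefl _ (mem_nh.mp (hS.1 h))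
    rw [mem_filter, mem_K]
    refine ⟨⟨by rw [card_insert_of_notMem hv, hS.2.1]; omega, ?_⟩, mem_insert_self _ _⟩
    rw [coe_insert]
    apply hS.2.2.insert
    intro b hb _
    exact mem_nh.mp (hS.1 hb)
  · intro S hS S' hS' h
    rw [mem_Kc] at hS hS'
    have hv : v ∉ S := fun h => G.loopless.irrefl _ (mem_nh.mp (hS.1 h))
    have hv' : v ∉ S' := fun h => G.loopless.irrefl _ (mem_nh.mp (hS'.1 h))
    rw [← erase_insert hv, ← erase_insert hv', h]
  · intro T hT
    rw [mem_filter, mem_K] at hT
    obtain ⟨⟨h1, h2⟩, h3⟩ := hT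
    refine ⟨T.erase v, ?_, insert_erase h3⟩
    rw [mem_Kc]
    refine ⟨fun x hx => ?_, by rw [card_erase_of_mem h3, h1], ?_⟩
    · rw [mem_erase] at hx
      exact mem_nh.mpr (h2 h3 hx.2 (Ne.symm hx.1))
    · exact h2.subset (by exact_mod_cast erase_subset _ _)
  · intro S _
    rfl

theorem sum_nh : (∑ v, ((nh G v).card : ℚ)) = 2 * (G.edgeSet.ncard : ℚ) := by
  have h1 := G.sum_degrees_eq_twice_card_edges
  have h2 : ∀ v, (nh G v).card = G.degree v := by
    intro v
    rw [← G.card_neighborFinset_eq_degree]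
    congr 1
    ext y
    rw [mem_nh, SimpleGraph.mem_neighborFinset]
  have h3 : G.edgeSet.ncard = G.edgeFinset.card := by
    rw [← Set.ncard_coe_finset, SimpleGraph.coe_edgeFinset]
  have h4 : ∑ v, (nh G v).card = 2 * G.edgeSet.ncard := by
    rw [h3, ← h1]
    exact sum_congr rfl fun v _ => h2 v
  exact_mod_cast h4

/-- The weighted sum, vertex by vertex. -/
theorem double_sum {t : ℕ} (ht : 3 ≤ t) :
    2 * ∑ T ∈ Kc G univ t, cw t (gam G T)
      = ∑ v, ∑ S ∈ Kc G (nh G v) (t - 1), w (t - 1) (gam G (insert v S) - 1) := by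
  have h1 : ∀ v, ∑ S ∈ Kc G (nh G v) (t - 1), w (t - 1) (gam G (insert v S) - 1)
      = ∑ T ∈ (Kc G univ t).filter (fun T => v ∈ T), w (t - 1) (gam G T - 1) :=
    fun v => (sum_through ht v fun T => w (t - 1) (gam G T - 1)).symm
  rw [sum_congr rfl fun v _ => h1 v]
  have h2 : ∑ v, ∑ T ∈ (Kc G univ t).filter (fun T => v ∈ T), w (t - 1) (gam G T - 1)
      = ∑ T ∈ Kc G univ t, ∑ v ∈ T, w (t - 1) (gam G T - 1) := by
    apply sum_comm'
    intro v T
    rw [mem_filter]
    constructor
    · rintro ⟨-, h1, h2⟩; exact ⟨h2, h1⟩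
    · rintro ⟨h1, h2⟩; exact ⟨mem_univ _, h2, h1⟩
  rw [h2, mul_sum]
  apply sum_congr rfl
  intro T hT
  rw [sum_const, nsmul_eq_mul, (mem_K.mp hT).1, cw_eq ht (le_gam ht hT)]

theorem term_le {t : ℕ} (ht : 3 ≤ t) {v : V} {S : Finset V} (hS : S ∈ Kc G (nh G v) (t - 1)) :
    w (t - 1) (gam G (insert v S) - 1) ≤ w (t - 1) (pl G (nh G v) S) := by
  have h1 := pl_succ_le_gam ht hS
  have h2 : t - 1 ≤ pl G (nh G v) S := by
    rw [mem_Kc] at hS
    rw [← hS.2.1]; exact card_le_pl hS.2.2 hS.1
  exact w_anti (by omega) h2 (by omega)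

theorem upper {t : ℕ} (ht : 3 ≤ t) :
    ∑ T ∈ Kc G univ t, cw t (gam G T) ≤ (G.edgeSet.ncard : ℚ) := by
  have h1 := double_sum (G := G) ht
  have h2 : ∑ v, ∑ S ∈ Kc G (nh G v) (t - 1), w (t - 1) (gam G (insert v S) - 1)
      ≤ ∑ v, ((nh G v).card : ℚ) := by
    apply sum_le_sum
    intro v _
    exact (sum_le_sum fun S hS => term_le ht hS).trans (tot_le (by omega) _ _ rfl).1
  rw [← h1, sum_nh] at h2
  linarith

/-- In the case of equality, the neighbourhoods are disjoint unions of cliques and the cycles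
through cliques are short. -/
theorem eq_case {t : ℕ} (ht : 3 ≤ t)
    (h : ∑ T ∈ Kc G univ t, cw t (gam G T) = (G.edgeSet.ncard : ℚ)) (v : V) :
    EqU G (nh G v) (t - 1) ∧
      ∀ S ∈ Kc G (nh G v) (t - 1), pl G (nh G v) S + 1 = gam G (insert v S) := by
  have h1 := double_sum (G := G) ht
  rw [h, ← sum_nh] at h1
  have hle : ∀ v ∈ (univ : Finset V), ∑ S ∈ Kc G (nh G v) (t - 1), w (t - 1) (gam G (insert v S) - 1)
      ≤ ((nh G v).card : ℚ) := fun v _ =>
    (sum_le_sum fun S hS => term_le ht hS).trans (tot_le (by omega) _ _ rfl).1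
  have h2 := (sum_eq_sum_iff_of_le hle).mp h1.symm v (mem_univ v)
  have h3 : ∑ S ∈ Kc G (nh G v) (t - 1), w (t - 1) (gam G (insert v S) - 1)
      ≤ tot G (nh G v) (t - 1) := sum_le_sum fun S hS => term_le ht hS
  have h4 := tot_le (G := G) (s := t - 1) (by omega) _ (nh G v) rfl
  refine ⟨h4.2 (le_antisymm h4.1 (h2 ▸ h3)), ?_⟩
  have h5 : ∑ S ∈ Kc G (nh G v) (t - 1), w (t - 1) (gam G (insert v S) - 1)
      = ∑ S ∈ Kc G (nh G v) (t - 1), w (t - 1) (pl G (nh G v) S) :=
    le_antisymm h3 (h4.1.trans h2.ge)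
  have h6 := (sum_eq_sum_iff_of_le fun S hS => term_le ht hS).mp h5
  intro S hS
  have h7 := h6 S hS
  have h8 := pl_succ_le_gam ht hS
  have h9 : t - 1 ≤ pl G (nh G v) S := by
    rw [mem_Kc] at hS
    rw [← hS.2.1]; exact card_le_pl hS.2.2 hS.1
  by_contra hne
  have := w_strictAnti (s := t - 1) (by omega) h9
    (show pl G (nh G v) S < gam G (insert v S) - 1 by omega)
  exact absurd h7 this.ne

/-- Equality implies the structure of the blocks. -/
theorem blocks_of_eq {t : ℕ} (ht : 3 ≤ t)
    (h : ∑ T ∈ Kc G univ t, cw t (gam G T) = (G.edgeSet.ncard : ℚ)) (B : Set V)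
    (hB : IsBlock G B) :
    (∃ v, B = {v} ∧ ∀ w, ¬ G.Adj v w) ∨ (G.IsClique B ∧ t ≤ B.ncard) := by
  have hne : B.Nonempty := by
    have := hB.1.1.nonempty
    exact Set.nonempty_coe_sort.mp this
  obtain ⟨v, hv⟩ := hne
  by_cases hedge : ∃ x ∈ B, G.Adj v x
  · right
    obtain ⟨x, hxB, hvx⟩ := hedge
    obtain ⟨⟨htr, hdeg⟩, hpl⟩ := eq_case ht h v
    have hxN : x ∈ nh G v := mem_nh.mpr hvx
    -- the clique at the edge `v x`
    set C : Finset V := insert x ((nh G v).filter fun y => G.Adj x y) with hC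
    have hxf : x ∉ (nh G v).filter fun y => G.Adj x y := by
      rw [mem_filter]; exact fun h => G.loopless.irrefl _ h.2
    have hCN : C ⊆ nh G v := insert_subset hxN (filter_subset _ _)
    have hCmem : ∀ y, y ∈ C ↔ y = x ∨ (y ∈ nh G v ∧ G.Adj x y) := by
      intro y; rw [hC, mem_insert, mem_filter]
    have hCcl : G.IsClique (C : Set V) := by
      intro a ha b hb hab
      rw [mem_coe, hCmem] at ha hb
      rcases ha with rfl | ha <;> rcases hb with rfl | hb
      · exact absurd rfl hab
      · exact hb.2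
      · exact ha.2.symm
      · exact htr a ha.1 x hxN b hb.1 ha.2.symm hb.2 hab
    have hCcard : t - 1 ≤ C.card := by
      rw [hC, card_insert_of_notMem hxf]
      exact hdeg x hxN
    have hvC : v ∉ C := fun h => G.loopless.irrefl _ (mem_nh.mp (hCN h))
    set Q : Finset V := insert v C with hQ
    have hQcl : G.IsClique (Q : Set V) := by
      rw [hQ, coe_insert]
      exact hCcl.insert fun b hb _ => mem_nh.mp (hCN hb)
    have hQcard : Q.card = C.card + 1 := by rw [hQ, card_insert_of_notMem hvC]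
    have hxC : x ∈ C := by rw [hCmem]; exact Or.inl rfl
    have hvQ : v ∈ Q := mem_insert_self _ _
    have hxQ : x ∈ Q := mem_insert_of_mem hxC
    have hQB : (Q : Set V) ⊆ B :=
      subset_block (nonSep_of_clique hQcl ⟨v, hvQ⟩) hB hvx.ne hvQ hv hxQ hxB
    -- a `t`-clique through `v` and `x`
    obtain ⟨S, hxS, hSC, hScard⟩ := exists_subsuperset_card_eq (s := {x}) (t := C) (n := t - 1)
      (by simpa using hxC) (by rw [card_singleton]; omega) hCcard
    have hSK : S ∈ Kc G (nh G v) (t - 1) := by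
      rw [mem_Kc]
      exact ⟨hSC.trans hCN, hScard, hCcl.subset (by exact_mod_cast hSC)⟩
    have hpe := hpl S hSK
    have hple : pl G (nh G v) S ≤ C.card := by
      have hS' := mem_Kc.mp hSK
      apply pl_le hS'.2.2 hS'.1
      intro l hl hSl
      have hstay := path_in_nbhd htr x hxN l hl
        ⟨x, hSl x (hxS (mem_singleton_self x)), Or.inl rfl⟩
      rw [← List.toFinset_card_of_nodup hl.1]
      apply card_le_card
      intro z hz
      rw [List.mem_toFinset] at hz
      rw [hCmem]
      exact (hstay z hz).imp id fun h => ⟨hl.2.2 z hz, h⟩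
    have hBQ : B ⊆ Q := by
      intro y hy
      by_contra hyQ
      have := ear hB.1 hQcl (by omega) hQB ⟨y, hy, hyQ⟩ (T := insert v S)
        (insert_subset hvQ (hSC.trans (subset_insert _ _)))
      omega
    have hBeq : B = (Q : Set V) := Set.Subset.antisymm hBQ hQB
    rw [hBeq]
    refine ⟨hQcl, ?_⟩
    rw [Set.ncard_coe_finset]
    omega
  · left
    push Not at hedge
    have hBv : B = {v} := by
      ext y
      rw [Set.mem_singleton_iff]
      constructor
      · intro hy
        by_contra hyv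
        obtain ⟨p⟩ := hB.1.1.preconnected ⟨v, hv⟩ ⟨y, hy⟩
        cases p with
        | nil => exact hyv rfl
        | cons hadj q =>
          rename_i z
          exact hedge z z.2 hadj
      · rintro rfl; exact hv
    refine ⟨v, hBv, fun x hx => ?_⟩
    have hcl : G.IsClique ({v, x} : Set V) := by
      intro a ha b hb hab
      rcases ha with rfl | rfl <;> rcases hb with rfl | rfl
      · exact absurd rfl hab
      · exact hx
      · exact hx.symm
      · exact absurd rfl hab
    have hns := nonSep_of_clique hcl ⟨v, Or.inl rfl⟩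
    have hle : B ⊆ {v, x} := by rw [hBv]; intro y hy; exact Or.inl hy
    have := hB.2 hns hle
    have hxB : x ∈ B := this (Or.inr rfl)
    rw [hBv, Set.mem_singleton_iff] at hxB
    exact hx.ne hxB.symm

/-- The structure of the blocks implies equality. -/
theorem eq_of_blocks {t : ℕ} (ht : 3 ≤ t)
    (h : ∀ B, IsBlock G B → (∃ v, B = {v} ∧ ∀ w, ¬ G.Adj v w) ∨ (G.IsClique B ∧ t ≤ B.ncard)) :
    ∑ T ∈ Kc G univ t, cw t (gam G T) = (G.edgeSet.ncard : ℚ) := by
  -- the sum for one ordered pair of adjacent vertices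
  have key : ∀ u v : V, G.Adj u v →
      ∑ T ∈ (Kc G univ t).filter (fun T => u ∈ T ∧ v ∈ T), cw t (gam G T) = (t.choose 2 : ℚ) := by
    intro u v huv
    have hcl : G.IsClique ({u, v} : Set V) := by
      intro a ha b hb hab
      rcases ha with rfl | rfl <;> rcases hb with rfl | rfl
      · exact absurd rfl hab
      · exact huv
      · exact huv.symm
      · exact absurd rfl hab
    obtain ⟨B, hsub, hB⟩ := exists_block (nonSep_of_clique hcl ⟨u, Or.inl rfl⟩)
    have huB : u ∈ B := hsub (Or.inl rfl)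
    have hvB : v ∈ B := hsub (Or.inr rfl)
    rcases h B hB with ⟨x, hBx, -⟩ | ⟨hBcl, hBt⟩
    · rw [hBx, Set.mem_singleton_iff] at huB hvB
      exact absurd (huB.trans hvB.symm) huv.ne
    set Q : Finset V := B.toFinset with hQ
    have hQB : (Q : Set V) = B := by rw [hQ, Set.coe_toFinset]
    have hQcl : G.IsClique (Q : Set V) := by rw [hQB]; exact hBcl
    have hQcard : Q.card = B.ncard := by rw [← Set.ncard_coe_finset, hQB]
    have huQ : u ∈ Q := by rw [← mem_coe, hQB]; exact huB
    have hvQ : v ∈ Q := by rw [← mem_coe, hQB]; exact hvB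
    have hsubQ : ∀ T ∈ (Kc G univ t).filter (fun T => u ∈ T ∧ v ∈ T), T ⊆ Q := by
      intro T hT
      rw [mem_filter, mem_K] at hT
      have := subset_block (nonSep_of_clique hT.1.2 ⟨u, hT.2.1⟩) hB huv.ne hT.2.1 huB hT.2.2 hvB
      rw [← hQB] at this
      exact_mod_cast this
    have hgam : ∀ T ∈ (Kc G univ t).filter (fun T => u ∈ T ∧ v ∈ T), gam G T = Q.card := by
      intro T hT
      have hTQ := hsubQ T hT
      rw [mem_filter, mem_K] at hT
      apply le_antisymm
      · rw [hQcard]
        exact gam_le_block hB huv.ne hT.2.1 hT.2.2 huB hvB (gam_nonempty hT.1.2 (by omega))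
      · exact card_le_gam hQcl (by omega) hTQ
    have hset : (Kc G univ t).filter (fun T => u ∈ T ∧ v ∈ T)
        = (Q.powersetCard t).filter (fun T => u ∈ T ∧ v ∈ T) := by
      ext T
      constructor
      · intro hT
        have hTQ := hsubQ T hT
        rw [mem_filter, mem_K] at hT
        rw [mem_filter, mem_powersetCard]
        exact ⟨⟨hTQ, hT.1.1⟩, hT.2⟩
      · intro hT
        rw [mem_filter, mem_powersetCard] at hT
        rw [mem_filter, mem_K]
        exact ⟨⟨hT.1.2, hQcl.subset (by exact_mod_cast hT.1.1)⟩, hT.2⟩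
    have hcount : ((Q.powersetCard t).filter (fun T => u ∈ T ∧ v ∈ T)).card
        = (Q.card - 2).choose (t - 2) := by
      have hpair : ({u, v} : Finset V) ⊆ Q := by
        intro z hz
        rw [mem_insert, mem_singleton] at hz
        rcases hz with rfl | rfl
        · exact huQ
        · exact hvQ
      have hc2 : ({u, v} : Finset V).card = 2 := card_pair huv.ne
      have : (Q \ {u, v}).card = Q.card - 2 := by rw [card_sdiff_of_subset hpair, hc2]
      rw [← this, ← card_powersetCard]
      symm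
      apply card_bij (fun S _ => {u, v} ∪ S)
      · intro S hS
        rw [mem_powersetCard] at hS
        rw [mem_filter, mem_powersetCard]
        refine ⟨⟨union_subset hpair (hS.1.trans sdiff_subset), ?_⟩, by simp, by simp⟩
        rw [card_union_of_disjoint, hc2, hS.2]
        · omega
        · rw [disjoint_left]
          intro z hz hzS
          exact (mem_sdiff.mp (hS.1 hzS)).2 hz
      · intro S hS S' hS' heq
        rw [mem_powersetCard] at hS hS'
        have e : ∀ S, S ⊆ Q \ {u, v} → ({u, v} ∪ S) \ {u, v} = S := by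
          intro S hS
          ext z
          rw [mem_sdiff, mem_union]
          constructor
          · rintro ⟨h1 | h1, h2⟩
            · exact absurd h1 h2
            · exact h1
          · intro h1
            exact ⟨Or.inr h1, (mem_sdiff.mp (hS h1)).2⟩
        rw [← e S hS.1, ← e S' hS'.1, heq]
      · intro T hT
        rw [mem_filter, mem_powersetCard] at hT
        have hpT : ({u, v} : Finset V) ⊆ T := by
          intro z hz
          rw [mem_insert, mem_singleton] at hz
          rcases hz with rfl | rfl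
          · exact hT.2.1
          · exact hT.2.2
        refine ⟨T \ {u, v}, ?_, union_sdiff_of_subset hpT⟩
        rw [mem_powersetCard]
        exact ⟨sdiff_subset_sdiff hT.1.1 (subset_refl _), by
          rw [card_sdiff_of_subset hpT, hc2, hT.1.2]⟩
    rw [sum_congr rfl fun T hT => by rw [hgam T hT], sum_const, nsmul_eq_mul, hset, hcount]
    have htQ : t ≤ Q.card := by omega
    have h1 := Nat.choose_mul (n := Q.card) (show 2 ≤ t by omega)
    have h2 : (0 : ℚ) < (Q.card.choose t : ℚ) := by exact_mod_cast Nat.choose_pos htQ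
    unfold cw
    rw [mul_div_assoc', div_eq_iff h2.ne']
    have h3 : ((Q.card.choose t : ℕ) : ℚ) * (t.choose 2 : ℚ)
        = (Q.card.choose 2 : ℚ) * ((Q.card - 2).choose (t - 2) : ℚ) := by exact_mod_cast h1
    linarith
  -- double counting of ordered pairs
  have hpairs : ∀ T ∈ Kc G univ t, (T.offDiag.card : ℚ) = (t : ℚ) * (t - 1) := by
    intro T hT
    rw [offDiag_card, (mem_K.mp hT).1, Nat.cast_sub (Nat.le_mul_self t)]
    push_cast; ring
  have h1 : ∑ T ∈ Kc G univ t, ∑ p ∈ T.offDiag, cw t (gam G T)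
      = (t : ℚ) * (t - 1) * ∑ T ∈ Kc G univ t, cw t (gam G T) := by
    rw [mul_sum]
    apply sum_congr rfl
    intro T hT
    rw [sum_const, nsmul_eq_mul, hpairs T hT]
  have h2 : ∑ T ∈ Kc G univ t, ∑ p ∈ T.offDiag, cw t (gam G T)
      = ∑ p ∈ (univ : Finset (V × V)).filter (fun p => G.Adj p.1 p.2),
        ∑ T ∈ (Kc G univ t).filter (fun T => p.1 ∈ T ∧ p.2 ∈ T), cw t (gam G T) := by
    apply sum_comm'
    intro T p
    rw [mem_filter, mem_filter, mem_offDiag]
    constructor
    · rintro ⟨h1, h2, h3, h4⟩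
      exact ⟨⟨h1, h2, h3⟩, mem_univ _, (mem_K.mp h1).2 h2 h3 h4⟩
    · rintro ⟨⟨h1, h2, h3⟩, -, h4⟩
      exact ⟨h1, h2, h3, h4.ne⟩
  have h3 : ∑ p ∈ (univ : Finset (V × V)).filter (fun p => G.Adj p.1 p.2),
        ∑ T ∈ (Kc G univ t).filter (fun T => p.1 ∈ T ∧ p.2 ∈ T), cw t (gam G T)
      = (((univ : Finset (V × V)).filter (fun p => G.Adj p.1 p.2)).card : ℚ) * (t.choose 2 : ℚ) := by
    rw [sum_congr rfl fun p hp => key p.1 p.2 (mem_filter.mp hp).2, sum_const, nsmul_eq_mul]
  have h4 : (((univ : Finset (V × V)).filter (fun p => G.Adj p.1 p.2)).card : ℚ)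
      = 2 * (G.edgeSet.ncard : ℚ) := by
    rw [← sum_nh]
    have : ((univ : Finset (V × V)).filter (fun p => G.Adj p.1 p.2)).card = ∑ v, (nh G v).card := by
      rw [← univ_product_univ, card_filter, sum_product]
      apply sum_congr rfl
      intro v _
      rw [← card_filter]
      rfl
    rw [this]; push_cast; rfl
  rw [h1, h3, h4, Nat.cast_choose_two] at h2
  have htpos : (0 : ℚ) < (t : ℚ) * (t - 1) := by
    have : (3 : ℚ) ≤ (t : ℚ) := by exact_mod_cast ht
    nlinarith
  have h5 : (t : ℚ) * (t - 1) * ∑ T ∈ Kc G univ t, cw t (gam G T)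
      = (t : ℚ) * (t - 1) * (G.edgeSet.ncard : ℚ) := by linarith
  exact mul_left_cancel₀ htpos.ne' h5

/-- For `t ≥ 3`, the sum of `C(γ(T), 2) / C(γ(T), t)` over all `t`-cliques `T` of `G` is at most the
number of edges of `G`, with equality if and only if every block of `G` is an isolated vertex or a
complete graph on at least `t` vertices. -/
theorem result {V : Type*} [Fintype V] (G : SimpleGraph V) (t : ℕ) (ht : 3 ≤ t) :
    (∑ T ∈ (univ : Finset (Finset V)).filter (fun T : Finset V => T.card = t ∧ G.IsClique (T : Set V)),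
        ((gam G T).choose 2 : ℚ) / ((gam G T).choose t : ℚ) ≤ (G.edgeSet.ncard : ℚ)) ∧
    ((∑ T ∈ (univ : Finset (Finset V)).filter (fun T : Finset V => T.card = t ∧ G.IsClique (T : Set V)),
        ((gam G T).choose 2 : ℚ) / ((gam G T).choose t : ℚ) = (G.edgeSet.ncard : ℚ)) ↔
      ∀ B : Set V, IsBlock G B →
        (∃ v, B = {v} ∧ ∀ w, ¬ G.Adj v w) ∨ (G.IsClique B ∧ t ≤ B.ncard)) := by
  have hset : (univ : Finset (Finset V)).filter (fun T : Finset V => T.card = t ∧ G.IsClique (T : Set V))
      = Kc G univ t := by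
    ext T
    rw [mem_K, mem_filter]
    simp
  rw [hset]
  exact ⟨upper ht, fun h => blocks_of_eq ht h, fun h => eq_of_blocks ht h⟩

end Pool.Agent.Results.MP_18736b_co.CircumferenceWeights
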